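import Pool.Agent.Lib.MP_23f460_nt.D.Defs

/-! The finiteness argument over a domain with finite quotients. -/

set_option autoImplicit false

namespace Pool.Agent.Lib.MP_23f460_nt.D

open Matrix Finset

variable {R : Type} [CommRing R] {n : ℕ}

/-- the quadratic form of a matrix -/
def Qf (a : Matrix (Fin n) (Fin n) R) (x : Fin n → R) : R := x ⬝ᵥ a *ᵥ x

/-- its polar form -/
def Bf (a : Matrix (Fin n) (Fin n) R) (x y : Fin n → R) : R := x ⬝ᵥ (a + aᵀ) *ᵥ y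

theorem Bf_eq (a : Matrix (Fin n) (Fin n) R) (x y : Fin n → R) :
    Bf a x y = x ⬝ᵥ a *ᵥ y + y ⬝ᵥ a *ᵥ x := by
  rw [Bf, add_mulVec, dotProduct_add, mulVec_transpose, dotProduct_comm x (y ᵥ* a),
    ← dotProduct_mulVec]

theorem Qf_lin (a : Matrix (Fin n) (Fin n) R) (s t : R) (x y : Fin n → R) :
    Qf a (s • x + t • y) = s ^ 2 * Qf a x + s * t * Bf a x y + t ^ 2 * Qf a y := by
  simp only [Qf, Bf_eq, mulVec_add, mulVec_smul, dotProduct_add, add_dotProduct, dotProduct_smul,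
    smul_dotProduct, smul_eq_mul]
  ring

theorem Qf_smul (a : Matrix (Fin n) (Fin n) R) (s : R) (x : Fin n → R) :
    Qf a (s • x) = s ^ 2 * Qf a x := by
  simpa using Qf_lin a s 0 x x

theorem Qf_sub (a : Matrix (Fin n) (Fin n) R) (x y : Fin n → R) :
    Qf a (x - y) = Qf a x - Bf a x y + Qf a y := by
  simpa [sub_eq_add_neg] using Qf_lin a 1 (-1) x y

theorem Bf_self (a : Matrix (Fin n) (Fin n) R) (x : Fin n → R) : Bf a x x = 2 * Qf a x := by
  rw [Bf_eq, two_mul, Qf]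

theorem hom_two {q : MvPolynomial (Fin n) R} (h : q.IsHomogeneous 2) :
    ∃ a : Matrix (Fin n) (Fin n) R, ∀ (A : Type) [CommRing A] [Algebra R A] (x : Fin n → A),
      MvPolynomial.aeval x q = Qf (a.map (algebraMap R A)) x := by
  classical
  rw [q.as_sum]
  refine Finset.sum_induction _ (fun p : MvPolynomial (Fin n) R =>
    ∃ a : Matrix (Fin n) (Fin n) R, ∀ (A : Type) [CommRing A] [Algebra R A] (x : Fin n → A),
      MvPolynomial.aeval x p = Qf (a.map (algebraMap R A)) x) ?_ ⟨0, fun A _ _ x => by simp [Qf]⟩ ?_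
  · rintro p p' ⟨a, ha⟩ ⟨a', ha'⟩
    refine ⟨a + a', fun A _ _ x => ?_⟩
    rw [map_add, ha, ha', Matrix.map_add _ (map_add _), Qf, Qf, Qf, add_mulVec, dotProduct_add]
  · intro d hd
    have h1 : d.degree = 2 := by
      by_contra h2
      exact MvPolynomial.mem_support_iff.1 hd (h.coeff_eq_zero h2)
    obtain ⟨i, j, hij⟩ := Multiset.card_eq_two.1 ((Finsupp.card_toMultiset d).trans h1)
    have h2 : d = Finsupp.single i 1 + Finsupp.single j 1 := by
      rw [← d.toMultiset_toFinsupp, hij, Multiset.insert_eq_cons, ← Multiset.singleton_add,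
        Multiset.toFinsupp_add, Multiset.toFinsupp_singleton, Multiset.toFinsupp_singleton]
    refine ⟨Matrix.single i j (q.coeff d), fun A _ _ x => ?_⟩
    rw [Matrix.map_single, Qf, single_mulVec, MvPolynomial.aeval_monomial]
    generalize algebraMap R A (q.coeff d) = c
    rw [h2, Finsupp.prod_add_index' (by simp) (by simp [pow_add])]
    simp [dotProduct, Function.update_apply]
    ring

variable [IsDomain R]

/-- sets with few distances are small -/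
theorem few (a : Matrix (Fin n) (Fin n) R) (D : Finset R) (h0 : 0 ∉ D) (Y : Finset (Fin n → R))
    (h : ∀ z ∈ Y, ∀ w ∈ Y, z ≠ w → Qf a (z - w) ∈ D) : Y.card ≤ (n + 2) ^ D.card := by
  classical
  let u : D → Y → Option (Option (Fin n)) → R := fun α z o =>
    o.elim (Qf a z - α) fun o' => o'.elim 1 fun i => -z.1 i
  let v : Y → Option (Option (Fin n)) → R := fun w o =>
    o.elim 1 fun o' => o'.elim (Qf a w) fun i => ((a + aᵀ) *ᵥ w.1) i
  have e : ∀ α z w, ∑ o, u α z o * v w o = Qf a (z.1 - w.1) - α := fun α z w => by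
    simp only [Fintype.sum_option, u, v, Option.elim, Qf_sub, Bf, dotProduct, neg_mul,
      sum_neg_distrib]
    ring
  let U : Matrix Y (D → Option (Option (Fin n))) R := .of fun z φ => ∏ α, u α z (φ α)
  let V : Matrix (D → Option (Option (Fin n))) Y R := .of fun φ w => ∏ α, v w (φ α)
  have h1 : U * V = diagonal fun _ => ∏ α : D, (-α : R) := by
    ext z w
    have : (U * V) z w = ∏ α : D, (Qf a (z.1 - w.1) - α) := by
      simp only [mul_apply, U, V, of_apply, ← prod_mul_distrib, ← e]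
      rw [Finset.prod_univ_sum, Fintype.piFinset_univ]
    rw [this]
    by_cases hzw : z = w
    · simp [hzw, Qf]
    · rw [diagonal_apply_ne _ hzw]
      exact prod_eq_zero (mem_univ ⟨_, h _ z.2 _ w.2 fun h => hzw (Subtype.ext h)⟩) (sub_self _)
  have h2 : (U * V).rank = Fintype.card Y := rank_of_det_ne_zero (by
    rw [h1, det_diagonal]
    exact prod_ne_zero_iff.2 fun _ _ => prod_ne_zero_iff.2 fun α _ =>
      neg_ne_zero.2 fun h => h0 (h ▸ α.2))
  have h3 := (rank_mul_le_left U V).trans (rank_le_card_width U)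
  simpa [h2, add_assoc] using h3

theorem canNorm_mul (a b : R) : canNorm (a * b) = canNorm a * canNorm b := by
  by_cases ha : a = 0
  · simp [canNorm, ha]
  by_cases hb : b = 0
  · simp [canNorm, hb]
  simp only [canNorm, if_neg ha, if_neg hb, if_neg (mul_ne_zero ha hb)]
  have h := AddSubgroup.index_map_of_injective (Ideal.span {b}).toAddSubgroup
    (f := AddMonoidHom.mulLeft a) (mul_right_injective₀ ha)
  have e1 : (Ideal.span {b}).toAddSubgroup.map (AddMonoidHom.mulLeft a) =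
      (Ideal.span {a * b}).toAddSubgroup := by
    ext x
    simp only [AddSubgroup.mem_map, Submodule.mem_toAddSubgroup, Ideal.mem_span_singleton',
      AddMonoidHom.coe_mulLeft]
    exact ⟨fun ⟨_, ⟨c, rfl⟩, h⟩ => ⟨c, by rw [← h]; ring⟩,
      fun ⟨c, h⟩ => ⟨_, ⟨c, rfl⟩, by rw [← h]; ring⟩⟩
  have e2 : (AddMonoidHom.mulLeft a).range = (Ideal.span {a}).toAddSubgroup := by
    ext x
    simp [Ideal.mem_span_singleton', mul_comm]
  rw [e1, e2, mul_comm (AddSubgroup.index _)] at h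
  exact h

variable [Ring.HasFiniteQuotients R]

omit [IsDomain R] in
theorem canNorm_pos {a : R} (ha : a ≠ 0) : 0 < canNorm a := by
  have := Ring.HasFiniteQuotients.finiteQuotient (mt Ideal.span_singleton_eq_bot.1 ha)
  rw [canNorm, if_neg ha]
  exact Nat.card_pos

theorem frac_lt {K : Type} [Field K] [Algebra R K] [IsFractionRing R K] {r s : R} (hs : s ≠ 0)
    (h : fracNorm R (algebraMap R K r / algebraMap R K s) < 1) : canNorm r < canNorm s := by
  have h1 := IsLocalization.sec_spec (nonZeroDivisors R) (algebraMap R K r / algebraMap R K s)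
  unfold fracNorm at h
  generalize IsLocalization.sec (nonZeroDivisors R) (algebraMap R K r / algebraMap R K s) = x at h h1
  have hb := canNorm_pos (nonZeroDivisors.coe_ne_zero x.2)
  rw [div_lt_one (by exact_mod_cast hb), Nat.cast_lt] at h
  rw [div_mul_eq_mul_div, div_eq_iff ((map_ne_zero_iff _ (IsFractionRing.injective R K)).2 hs),
    ← map_mul, ← map_mul] at h1
  have h2 := congrArg canNorm (IsFractionRing.injective R K h1)
  rw [canNorm_mul, canNorm_mul] at h2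
  have := canNorm_pos hs
  nlinarith

theorem ex_T (hU : ∃ U : Set Rˣ, U.Finite ∧ ∀ u : Rˣ, ∃ u₀ ∈ U, ∃ ε : Rˣ, u = ε ^ 2 * u₀) (N : ℕ) :
    ∃ T : Set R, T.Finite ∧ 0 ∉ T ∧
      ∀ r : R, r ≠ 0 → canNorm r ≤ N → ∃ ε : Rˣ, ∃ t ∈ T, r = ε ^ 2 * t := by
  obtain ⟨U, hU, hU'⟩ := hU
  have h : ∀ I : Ideal R, ∃ g : R, g ≠ 0 ∧ ∀ r, r ≠ 0 → Ideal.span {r} = I → Associated g r := by
    intro I
    by_cases h : ∃ r : R, r ≠ 0 ∧ Ideal.span {r} = I
    · obtain ⟨g, hg, rfl⟩ := h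
      exact ⟨g, hg, fun r _ e => Ideal.span_singleton_eq_span_singleton.1 e.symm⟩
    · exact ⟨1, one_ne_zero, fun r h1 h2 => absurd ⟨r, h1, h2⟩ h⟩
  choose g g0 hg using h
  refine ⟨Set.image2 (fun I (u : Rˣ) => g I * u) _ U,
    (Ring.HasFiniteQuotients.finite_cardQuot_le N).image2 _ hU, ?_, fun r hr hN => ?_⟩
  · rintro ⟨I, -, u, -, h⟩
    exact mul_ne_zero (g0 I) u.ne_zero h
  · obtain ⟨u, hu⟩ := hg _ r hr rfl
    obtain ⟨u₀, h0, ε, rfl⟩ := hU' u
    refine ⟨ε, _, ⟨Ideal.span {r}, ?_, u₀, h0, rfl⟩, ?_⟩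
    · rw [canNorm, if_neg hr] at hN
      exact hN
    · refine hu.symm.trans ?_
      push_cast
      ring

omit [Ring.HasFiniteQuotients R] in
theorem iso_of {a a' P P' M M' : Matrix (Fin n) (Fin n) R} {g : R} (h2 : (2 : R) ≠ 0) (hg : g ≠ 0)
    (hG : Pᵀ * (a + aᵀ) * P = P'ᵀ * (a' + a'ᵀ) * P') (hM : P * M = g • 1) (hM' : P' * M' = g • 1)
    (h : LinearMap.range M.mulVecLin = LinearMap.range M'.mulVecLin) :
    ∃ C : GL (Fin n) R, ∀ x, Qf a x = Qf a' (C.1 *ᵥ x) := by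
  have key : ∀ M M' : Matrix (Fin n) (Fin n) R,
      LinearMap.range M.mulVecLin ≤ LinearMap.range M'.mulVecLin → ∃ C, M = M' * C := by
    intro M M' h
    choose c hc using fun j => h ⟨Pi.single j 1, rfl⟩
    refine ⟨(Matrix.of c)ᵀ, ?_⟩
    ext i j
    simpa [mul_apply, mulVec, dotProduct, Pi.single_apply] using (congrFun (hc j) i).symm
  obtain ⟨C, hC⟩ := key M M' h.le
  obtain ⟨C', hC'⟩ := key M' M h.ge
  have hs : ∀ A B : Matrix (Fin n) (Fin n) R, g • A = g • B → A = B := fun A B h =>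
    smul_right_injective _ hg h
  have e1 : C' * C = 1 := hs _ _ (by
    rw [← hM, ← Matrix.one_mul (C' * C), ← smul_mul_assoc, ← hM, Matrix.mul_assoc,
      ← Matrix.mul_assoc M, ← hC', ← hC])
  have e2 : P' * M = g • C := by rw [hC, ← Matrix.mul_assoc, hM', smul_mul_assoc, Matrix.one_mul]
  have e3 : a + aᵀ = Cᵀ * (a' + a'ᵀ) * C := hs _ _ (hs _ _ (by
    have e4 := congrArg (fun X => Mᵀ * X * M) hG
    simp only [← Matrix.mul_assoc, ← transpose_mul] at e4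
    simp only [Matrix.mul_assoc _ _ M, hM, e2] at e4
    simpa using e4))
  refine ⟨⟨C, C', mul_eq_one_comm.1 e1, e1⟩, fun x => mul_left_cancel₀ h2 ?_⟩
  rw [← Bf_self, ← Bf_self, Bf, Bf, e3, mulVec_mulVec, Matrix.mul_assoc, ← mulVec_mulVec,
    mulVec_transpose, dotProduct_comm, ← dotProduct_mulVec, dotProduct_comm]

omit [IsDomain R] [Ring.HasFiniteQuotients R] in
theorem ex_basis {I : Ideal R} (hI : I ≠ ⊤) (Z : Set (Fin n → R))
    (h : ∀ c : Fin n → R, (∀ i, c i ∈ I) ∨ ∃ ε : R, ∃ z ∈ Z, ∀ i, c i - ε * z i ∈ I) :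
    ∃ P : Matrix (Fin n) (Fin n) R, (∀ i, Pᵀ i ∈ Z) ∧ P.det ≠ 0 := by
  obtain ⟨J, hJ, hIJ⟩ := Ideal.exists_le_maximal I hI
  let := Ideal.Quotient.field J
  let f : Z → Fin n → R ⧸ J := fun z i => Ideal.Quotient.mk J (z.1 i)
  have hs : Submodule.span (R ⧸ J) (Set.range f) = ⊤ := eq_top_iff.2 fun x _ => by
    choose c hc using fun i => Ideal.Quotient.mk_surjective (x i)
    rcases h c with h | ⟨ε, z, hz, h⟩
    · have : x = 0 := funext fun i => (hc i).symm.trans (Ideal.Quotient.eq_zero_iff_mem.2 (hIJ (h i)))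
      exact this ▸ zero_mem _
    · have : x = Ideal.Quotient.mk J ε • f ⟨z, hz⟩ := funext fun i =>
        (hc i).symm.trans ((Ideal.Quotient.eq.2 (hIJ (h i))).trans (map_mul _ _ _))
      exact this ▸ Submodule.smul_mem _ _ (Submodule.subset_span ⟨_, rfl⟩)
  obtain ⟨κ, b, -, h1, h2⟩ := exists_linearIndependent' (R ⧸ J) f
  have := h2.finite
  have := Fintype.ofFinite κ
  have h3 : Fintype.card κ = n := by
    rw [linearIndependent_iff_card_eq_finrank_span.1 h2, Set.finrank, h1, hs, finrank_top]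
    simp
  let e := (Fintype.equivFinOfCardEq h3).symm
  refine ⟨(Matrix.of fun i => (b (e i)).1)ᵀ, fun i => (b (e i)).2, fun h4 => ?_⟩
  have h5 : IsUnit ((Ideal.Quotient.mk J).mapMatrix (Matrix.of fun i => (b (e i)).1)) :=
    linearIndependent_rows_iff_isUnit.1 (h2.comp e e.injective)
  rw [isUnit_iff_isUnit_det, ← RingHom.map_det, ← det_transpose, h4, map_zero] at h5
  exact not_isUnit_zero h5

theorem card_le {m : R} (hm : m ≠ 0) (a : Matrix (Fin n) (Fin n) R) (D : Finset R) (h0 : 0 ∉ D)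
    (Z : Set (Fin n → R)) (hZ : ∀ z ∈ Z, ∀ w ∈ Z, z ≠ w → Qf a (z - w) ∈ D)
    (h : ∀ c : Fin n → R, (∀ i, c i ∈ Ideal.span {m}) ∨
      ∃ ε : R, ∃ z ∈ Z, ∀ i, c i - ε * z i ∈ Ideal.span {m}) :
    canNorm m ^ n ≤ canNorm m * (n + 2) ^ D.card + 1 := by
  classical
  have := Ring.HasFiniteQuotients.finiteQuotient (mt Ideal.span_singleton_eq_bot.1 hm)
  have hf : Z.Finite := by
    by_contra hf
    obtain ⟨Y, h1, h2⟩ := Set.Infinite.exists_subset_card_eq hf ((n + 2) ^ D.card + 1)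
    have := few a D h0 Y fun z hz w hw => hZ z (h1 hz) w (h1 hw)
    omega
  lift Z to Finset (Fin n → R) using hf
  have h1 := few a D h0 Z hZ
  let f : Option ((R ⧸ Ideal.span {m}) × Z) → Fin n → R ⧸ Ideal.span {m} := fun o =>
    o.elim 0 fun p i => p.1 * Ideal.Quotient.mk _ (p.2.1 i)
  have h2 := Nat.card_le_card_of_surjective f fun x => by
    choose c hc using fun i => Ideal.Quotient.mk_surjective (x i)
    rcases h c with h | ⟨ε, z, hz, h⟩
    · exact ⟨none, funext fun i => (Ideal.Quotient.eq_zero_iff_mem.2 (h i)).symm.trans (hc i)⟩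
    · exact ⟨some (Ideal.Quotient.mk _ ε, ⟨z, hz⟩), funext fun i =>
        (map_mul _ _ _).symm.trans ((Ideal.Quotient.eq.2 (h i)).symm.trans (hc i))⟩
  rw [Nat.card_fun, Finite.card_option, Nat.card_prod, Nat.card_eq_fintype_card (α := Z),
    Fintype.card_coe, Nat.card_fin] at h2
  rw [canNorm, if_neg hm]
  exact h2.trans (by gcongr)

theorem ex_bound (N s : ℕ) (hN : 2 ≤ N) : ∃ n₀, ∀ n, N ^ n ≤ N * (n + 2) ^ s + 1 → n < n₀ := by
  have h := (tendsto_pow_const_div_const_pow_of_one_lt s (one_lt_two (α := ℝ))).eventually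
    (gt_mem_nhds (show (0 : ℝ) < 1 / 16 by norm_num))
  obtain ⟨k, hk⟩ := Filter.eventually_atTop.1 h
  refine ⟨k + 1, fun n hn => ?_⟩
  by_contra hc
  obtain ⟨j, rfl⟩ : ∃ j, n = j + 1 := ⟨n - 1, by omega⟩
  have h1 := hk (j + 1 + 2) (by omega)
  rw [div_lt_div_iff₀ (by positivity) (by norm_num), one_mul] at h1
  have h2 : (j + 1 + 2) ^ s * 16 < 2 ^ (j + 1 + 2) := by exact_mod_cast h1
  have h3 : 2 ^ j ≤ N ^ j := Nat.pow_le_pow_left hN j
  have h4 : 0 < (j + 1 + 2) ^ s := by positivity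
  rw [pow_succ] at hn
  rw [pow_add 2, pow_add 2] at h2
  generalize (j + 1 + 2) ^ s = x at *
  have h5 : 2 * x + 1 ≤ N ^ j := by omega
  nlinarith [Nat.mul_le_mul_right N h5]

omit [IsDomain R] in
theorem fin_sub {g : R} (hg : g ≠ 0) :
    {N : Submodule R (Fin n → R) | ∀ x, g • x ∈ N}.Finite := by
  have := Ring.HasFiniteQuotients.finiteQuotient (mt Ideal.span_singleton_eq_bot.1 hg)
  let f : (Fin n → R) → Fin n → R ⧸ Ideal.span {g} := fun x i => Ideal.Quotient.mk _ (x i)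
  have key : ∀ N N' : Submodule R (Fin n → R), (∀ x, g • x ∈ N') → f '' N = f '' N' → N ≤ N' := by
    intro N N' h e x hx
    obtain ⟨y, hy, hxy⟩ : f x ∈ f '' N' := e ▸ ⟨x, hx, rfl⟩
    choose c hc using fun i =>
      Ideal.mem_span_singleton'.1 (Ideal.Quotient.eq.1 (congrFun hxy.symm i))
    have : x = y + g • c := funext fun i => by
      rw [Pi.add_apply, Pi.smul_apply, smul_eq_mul, mul_comm, hc i, add_sub_cancel]
    exact this ▸ add_mem hy (h c)
  exact Set.Finite.of_finite_image (f := fun N : Submodule R (Fin n → R) => f '' N) (Set.toFinite _)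
    fun N hN N' hN' e => le_antisymm (key _ _ hN' e) (key _ _ hN e.symm)

/-- the abstract finiteness theorem -/
theorem abs_fin (h2 : (2 : R) ≠ 0) {m : R} (hm : m ≠ 0) (hm' : ¬ IsUnit m)
    (hU : ∃ U : Set Rˣ, U.Finite ∧ ∀ u : Rˣ, ∃ u₀ ∈ U, ∃ ε : Rˣ, u = ε ^ 2 * u₀)
    (𝒞 : Set (Σ n : ℕ, Matrix (Fin n) (Fin n) R)) (an : ∀ a ∈ 𝒞, ∀ x, x ≠ 0 → Qf a.2 x ≠ 0)
    (cs : ∀ t t' : R, {b | ∃ a ∈ 𝒞, ∃ z w, Qf a.2 z = t ∧ Qf a.2 w = t' ∧ Bf a.2 z w = b}.Finite)
    (eu : ∀ a ∈ 𝒞, ∀ c : Fin a.1 → R, (∀ i, c i ∈ Ideal.span {m}) ∨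
      ∃ y, canNorm (Qf a.2 (c - m • y)) < canNorm (m ^ 2)) :
    ∃ Y : Set (Σ n : ℕ, Matrix (Fin n) (Fin n) R × Submodule R (Fin n → R)), Y.Finite ∧
      ∀ a ∈ 𝒞, ∃ G L, ⟨a.1, G, L⟩ ∈ Y ∧ G.det ≠ 0 ∧ ∃ P M, Pᵀ * (a.2 + a.2ᵀ) * P = G ∧
        P * M = G.det • 1 ∧ LinearMap.range M.mulVecLin = L := by
  classical
  obtain ⟨T, hT, hT0, hT'⟩ := ex_T hU (canNorm (m ^ 2))
  let A := ⋃ t ∈ T, ⋃ t' ∈ T,
    {b | ∃ a ∈ 𝒞, ∃ z w, Qf a.2 z = t ∧ Qf a.2 w = t' ∧ Bf a.2 z w = b}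
  have hA : A.Finite := hT.biUnion fun t _ => hT.biUnion fun t' _ => cs t t'
  have hA' : ∀ a ∈ 𝒞, ∀ z w, Qf a.2 z ∈ T → Qf a.2 w ∈ T → Bf a.2 z w ∈ A := fun a ha z w hz hw =>
    Set.mem_biUnion hz (Set.mem_biUnion hw ⟨a, ha, z, w, rfl, rfl, rfl⟩)
  have hD := ((hT.image2 (· - ·) hA).image2 (· + ·) hT).sdiff (t := {0})
  have hZ : ∀ a ∈ 𝒞, ∀ c : Fin a.1 → R, (∀ i, c i ∈ Ideal.span {m}) ∨
      ∃ ε : R, ∃ z ∈ {z | Qf a.2 z ∈ T}, ∀ i, c i - ε * z i ∈ Ideal.span {m} := fun a ha c => by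
    by_cases hc : ∀ i, c i ∈ Ideal.span {m}
    · exact .inl hc
    obtain ⟨y, hy⟩ := (eu a ha c).resolve_left hc
    obtain ⟨ε, t, ht, e⟩ := hT' _ (an a ha _ fun h => hc fun i =>
      Ideal.mem_span_singleton'.2 ⟨y i, by
        rw [mul_comm]; exact (congrFun (sub_eq_zero.1 h) i).symm⟩) hy.le
    refine .inr ⟨ε, (ε⁻¹ : Rˣ).1 • (c - m • y), ?_, fun i => Ideal.mem_span_singleton'.2 ⟨y i, ?_⟩⟩
    · rw [Set.mem_ofPred_eq, Qf_smul, e, ← mul_assoc, ← mul_pow, Units.inv_mul, one_pow, one_mul]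
      exact ht
    · simp only [Pi.smul_apply, Pi.sub_apply, smul_eq_mul, Units.mul_inv_cancel_left]
      ring
  have hm'' : Ideal.span {m} ≠ ⊤ := mt Ideal.span_singleton_eq_top.1 hm'
  have hN : 2 ≤ canNorm m := by
    have := Ring.HasFiniteQuotients.finiteQuotient (mt Ideal.span_singleton_eq_bot.1 hm)
    have := Ideal.Quotient.nontrivial_iff.2 hm''
    rw [canNorm, if_neg hm]
    exact Finite.one_lt_card
  obtain ⟨n₀, hn⟩ := ex_bound (canNorm m) hD.toFinset.card hN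
  let Y : ∀ n : ℕ, Set (Matrix (Fin n) (Fin n) R × Submodule R (Fin n → R)) := fun n =>
    ⋃ G ∈ {G : Matrix (Fin n) (Fin n) R | (∀ i j, G i j ∈ A) ∧ G.det ≠ 0},
      Prod.mk G '' {N | ∀ x : Fin n → R, G.det • x ∈ N}
  have hY : ∀ n, (Y n).Finite := fun n =>
    ((Set.Finite.pi' fun _ => Set.Finite.pi' fun _ => hA).subset fun _ h => h.1).biUnion
      fun G hG => (fin_sub hG.2).image _
  refine ⟨⋃ n ∈ Set.Iio n₀, Sigma.mk n '' Y n,
    (Set.finite_Iio n₀).biUnion fun n _ => (hY n).image _, fun a ha => ?_⟩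
  obtain ⟨P, hP, hP'⟩ := ex_basis hm'' _ (hZ a ha)
  have hH : (a.2 + a.2ᵀ).det ≠ 0 := fun h => by
    obtain ⟨x, hx, h⟩ := exists_mulVec_eq_zero_iff.2 h
    exact mul_ne_zero h2 (an a ha x hx) (by rw [← Bf_self, Bf, h, dotProduct_zero])
  have hd : (Pᵀ * (a.2 + a.2ᵀ) * P).det = P.det * (a.2 + a.2ᵀ).det * P.det := by
    rw [det_mul, det_mul, det_transpose]
  have hg : (Pᵀ * (a.2 + a.2ᵀ) * P).det ≠ 0 := hd ▸ mul_ne_zero (mul_ne_zero hP' hH) hP'
  refine ⟨_, LinearMap.range ((P.det * (a.2 + a.2ᵀ).det) • P.adjugate).mulVecLin,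
    Set.mem_biUnion (hn a.1 (card_le hm a.2 _ (by simp) _ (fun z hz w hw h => ?_)
    (hZ a ha))) ⟨_, Set.mem_biUnion ⟨fun i j => ?_, hg⟩
      ⟨_, fun x => LinearMap.mem_range.2 ⟨P *ᵥ x, ?_⟩, rfl⟩, rfl⟩,
    hg, P, _, rfl, ?_, rfl⟩
  · exact hD.mem_toFinset.2 ⟨⟨_, ⟨_, hz, _, hA' a ha z w hz hw, rfl⟩, _, hw, (Qf_sub _ _ _).symm⟩,
      an a ha _ (sub_ne_zero.2 h)⟩
  · convert hA' a ha _ _ (hP i) (hP j) using 1
    rw [Bf, dotProduct_mulVec]
    rfl
  · rw [mulVecLin_apply, mulVec_mulVec, smul_mul_assoc, adjugate_mul, smul_smul, hd, smul_mulVec,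
      one_mulVec]
  · rw [mul_smul_comm, mul_adjugate, smul_smul, hd]

end Pool.Agent.Lib.MP_23f460_nt.D
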