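import Pool.Agent.Lib.MP_23f460_nt.D.Pack

/-! Arithmetic of rings of `S`-integers. -/

set_option autoImplicit false

namespace Pool.Agent.Lib.MP_23f460_nt.D

open Finset

variable {K : Type} [Field K] {S : Finset (AbsoluteValue K ℝ)} {R : Subring K}

theorem fin_quot (H : IsHasse K S R) : Ring.HasFiniteQuotients R := ⟨fun {I} hI => by
  obtain ⟨A₁, A₂, _, _, _, _, _, _, h, -⟩ := pack H.global
  obtain ⟨a, ha, h0⟩ := Submodule.exists_mem_ne_zero_of_ne_bot hI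
  have h0' : (a : K) ≠ 0 := fun e => h0 (Subtype.ext e)
  obtain ⟨Φ₁, f₁, h₁⟩ := ovr A₁ h0'
  obtain ⟨Φ₂, f₂, h₂⟩ := ovr A₂ h0'
  choose c₁ m₁ h₁ using h₁
  choose c₂ m₂ h₂ using h₂
  have := f₁.to_subtype
  have := f₂.to_subtype
  have hπ : Function.Surjective (Ideal.Quotient.mk I) := Ideal.Quotient.mk_surjective
  let s : R ⧸ I → R := Function.surjInv hπ
  refine Finite.of_injective
    (fun z => ((⟨_, m₁ (s z)⟩, ⟨_, m₂ (s z)⟩) : Φ₁ × Φ₂)) fun z z' e => ?_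
  have e₁ : c₁ (s z) = c₁ (s z') := congrArg (fun p : Φ₁ × Φ₂ => p.1.1) e
  have e₂ : c₂ (s z) = c₂ (s z') := congrArg (fun p : Φ₁ × Φ₂ => p.2.1) e
  have h3 : ((s z : K) - s z') / a ∈ R := (H.mem _).2 fun w hw hS => by
    have hn : IsNonarchimedean w := by
      by_contra hn
      obtain ⟨v, hv, e⟩ := H.arch w hn
      exact hS v hv e
    have k := (H.mem _).1 (s z).2 w hw hS
    have k' := (H.mem _).1 (s z').2 w hw hS
    have key : ∀ c : K, w (s z - c) ≤ w a → w (s z' - c) ≤ w a → w ((s z - s z') / a) ≤ 1 :=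
      fun c h1 h2 => by
        rw [map_div₀, div_le_one (w.pos h0'), ← sub_add_sub_cancel _ c]
        exact (hn _ _).trans (max_le h1 ((w.map_sub _ _).trans_le h2))
    rcases h w hn with h | h
    · exact key _ (h₁ _ w hn h k) (e₁ ▸ h₁ _ w hn h k')
    · exact key _ (h₂ _ w hn h k) (e₂ ▸ h₂ _ w hn h k')
  rw [← Function.surjInv_eq hπ z, ← Function.surjInv_eq hπ z']
  refine Ideal.Quotient.eq.2 ?_
  convert I.mul_mem_left ⟨_, h3⟩ ha using 1
  exact Subtype.ext (div_mul_cancel₀ _ h0').symm⟩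

theorem fin_bdd (H : IsHasse K S R) (C : ℝ) : {b : K | b ∈ R ∧ ∀ v ∈ S, v b ≤ C}.Finite := by
  obtain ⟨A₁, A₂, _, _, _, _, _, _, -, h⟩ := pack H.global
  obtain ⟨D₁, h₁, k₁⟩ := den A₁ H C
  obtain ⟨D₂, h₂, k₂⟩ := den A₂ H C
  have hx : ∀ w : AbsoluteValue K ℝ, ∃ x, ¬ IsNonarchimedean w →
      ∀ b, (∀ v ∈ S, v b ≤ C) → w b ≤ w x := fun w => by
    by_cases hw : IsNonarchimedean w
    · exact ⟨0, fun h => absurd hw h⟩
    obtain ⟨v, hv, e⟩ := H.arch w hw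
    obtain ⟨x, hx⟩ := (H.place v hv).exists_abv_gt_one
    obtain ⟨k, hk⟩ := pow_unbounded_of_one_lt C hx
    exact ⟨x ^ k, fun _ b hb => (e _ _).2 ((hb v hv).trans (hk.le.trans_eq (v.map_pow x k).symm))⟩
  choose x hx using hx
  exact (h D₁ D₂ (fun w => w (x w)) h₁ h₂).subset fun b hb =>
    ⟨k₁ b hb.1 hb.2, k₂ b hb.1 hb.2, fun w hw => hx w hw b hb.2⟩

theorem fin_units (H : IsHasse K S R) :
    ∃ U : Set Rˣ, U.Finite ∧ ∀ u : Rˣ, ∃ u₀ ∈ U, ∃ ε : Rˣ, u = ε ^ 2 * u₀ := by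
  have h0 : ∀ u : Rˣ, ((u : R) : K) ≠ 0 := fun u e => u.ne_zero (Subtype.ext e)
  let L : Additive Rˣ →+ (S → ℝ) := AddMonoidHom.mk'
    (fun u v => Real.log (v.1 ((u.toMul : Rˣ) : R))) fun u u' => funext fun v => by
      simp only [toMul_add, Units.val_mul, Subring.coe_mul, map_mul, Pi.add_apply]
      exact Real.log_mul (v.1.ne_zero (h0 _)) (v.1.ne_zero (h0 _))
  have hf : {u | ‖L u‖ ≤ 1}.Finite :=
    ((fin_bdd H (Real.exp 1)).preimage (f := fun u : Additive Rˣ => (((u.toMul : Rˣ) : R) : K))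
      fun u _ u' _ e => Additive.toMul.injective (Units.ext (Subtype.ext e))).subset
      fun u hu => ⟨Subtype.prop _, fun v hv => (Real.log_le_iff_le_exp (v.pos (h0 _))).1
        ((le_abs_self _).trans ((norm_le_pi_norm (L u) ⟨v, hv⟩).trans hu))⟩
  let f := L.toIntLinearMap
  have : DiscreteTopology ((⊤ : Submodule ℤ (Additive Rˣ)).map f) := by
    obtain ⟨r, h1, h2⟩ : ∃ r : ℝ, 0 < r ∧ ∀ u, L u ≠ 0 → r ≤ ‖L u‖ := by
      obtain ⟨M, hM⟩ := (hf.image fun u => ‖L u‖⁻¹).bddAbove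
      refine ⟨(max M 1)⁻¹, by positivity, fun u hu => ?_⟩
      have h3 := norm_pos_iff.2 hu
      refine inv_le_of_inv_le₀ h3 ?_
      rcases le_total ‖L u‖ 1 with h | h
      · exact (hM ⟨u, h, rfl⟩).trans (le_max_left _ _)
      · exact (inv_le_one_of_one_le₀ h).trans (le_max_right _ _)
    refine DiscreteTopology.of_forall_le_norm h1 ?_
    rintro ⟨_, u, hu, rfl⟩ h
    exact h2 u fun e => h (Subtype.ext e)
  have h1 : (⊤ : Submodule ℤ (Additive Rˣ)).FG := Submodule.fg_of_fg_map_of_fg_inf_ker f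
    (Module.Finite.iff_fg.1 inferInstance) (Module.Finite.iff_fg.1 (by
      have : Finite (⊤ ⊓ LinearMap.ker f : Submodule ℤ (Additive Rˣ)) :=
        (hf.subset fun u hu => ((congrArg norm hu.2).trans norm_zero).trans_le zero_le_one).to_subtype
      infer_instance))
  have := GroupFG.iff_add_fg.2 (Module.Finite.iff_addGroup_fg.1 ⟨h1⟩)
  have := Subgroup.finiteIndex_range_powMonoidHom_of_fg Rˣ two_ne_zero
  refine ⟨Set.range fun z : Rˣ ⧸ (powMonoidHom 2 : Rˣ →* Rˣ).range => z.out, Set.finite_range _,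
    fun u => ⟨_, ⟨(u : Rˣ ⧸ (powMonoidHom 2 : Rˣ →* Rˣ).range), rfl⟩, ?_⟩⟩
  obtain ⟨⟨_, ε, rfl⟩, h⟩ := QuotientGroup.mk_out_eq_mul (powMonoidHom 2 : Rˣ →* Rˣ).range u
  exact ⟨ε⁻¹, by simp [h, mul_comm u]⟩

theorem ex_nonunit (H : IsHasse K S R) [IsFractionRing R K] : ∃ m : R, m ≠ 0 ∧ ¬ IsUnit m := by
  classical
  by_contra! h
  have hR : ∀ x : K, x ∈ R := fun x => by
    obtain ⟨p, s, hs, rfl⟩ := IsFractionRing.div_surjective (A := R) x
    obtain ⟨u, rfl⟩ := h s (nonZeroDivisors.ne_zero hs)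
    rw [div_eq_mul_inv, ← map_units_inv, ← map_mul]
    exact (p * (u⁻¹ : Rˣ)).2
  have : Infinite K := by
    obtain ⟨v, hv⟩ := H.nonempty
    obtain ⟨x, hx⟩ := (H.place v hv).exists_abv_gt_one
    exact Infinite.of_injective (fun k : ℕ => x ^ k) fun k l e =>
      (pow_right_strictMono₀ hx).injective (by simpa using congrArg v e)
  obtain ⟨Z, hZ⟩ := Infinite.exists_subset_card_eq K (S.card + 1)
  refine Set.infinite_univ ((Z.finite_toSet.image2 (fun a b => a + b⁻¹)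
    (fin_bdd H (∑ v ∈ S, ∑ a ∈ Z, ∑ a' ∈ Z, 2 / v (a - a')))).subset fun x _ => ?_)
  choose i hi hi' using fun v : AbsoluteValue K ℝ =>
    Z.exists_min_image (fun a => v (x - a)) (card_pos.1 (by omega))
  obtain ⟨a, ha, ha'⟩ := exists_mem_notMem_of_card_lt_card (s := S.image i) (t := Z)
    (card_image_le.trans_lt (by omega))
  refine ⟨a, ha, (x - a)⁻¹, ⟨hR _, fun v hv => ?_⟩, by simp⟩
  have h1 : 0 < v (a - i v) := v.pos (sub_ne_zero.2 fun e => ha' (e ▸ mem_image_of_mem i hv))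
  have h2 : v (a - i v) ≤ 2 * v (x - a) := by
    have := v.sub_le a x (i v)
    have := hi' v a ha
    rw [v.map_sub a x] at *
    linarith
  calc v (x - a)⁻¹ ≤ 2 / v (a - i v) := by
        rw [map_inv₀, le_div_iff₀ h1, inv_mul_le_iff₀ (by linarith)]
        linarith
    _ ≤ ∑ a' ∈ Z, 2 / v (a - a') :=
        single_le_sum (f := fun a' => 2 / v (a - a')) (fun _ _ => by positivity) (hi v)
    _ ≤ ∑ a ∈ Z, ∑ a' ∈ Z, 2 / v (a - a') :=
        single_le_sum (f := fun a => ∑ a' ∈ Z, 2 / v (a - a')) (fun _ _ => by positivity) ha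
    _ ≤ _ := single_le_sum
        (f := fun v : AbsoluteValue K ℝ => ∑ a ∈ Z, ∑ a' ∈ Z, 2 / v (a - a'))
        (fun _ _ => by positivity) hv

/-- a Cauchy–Schwarz bound in a complete field -/
theorem ex_cs {v : AbsoluteValue K ℝ} (hv : v.IsNontrivial) :
    ∃ C : ℝ, 0 ≤ C ∧ ∀ a b c : v.Completion,
      ((∃ X, X ^ 2 * a + X * b + c = 0) → b ^ 2 = 4 * a * c) → (a = 0 → b = 0) →
        ‖b‖ ^ 2 ≤ C * ‖a‖ * ‖c‖ := by
  obtain ⟨x, h0, h1⟩ := hv
  let : NontriviallyNormedField v.Completion := NontriviallyNormedField.ofNormNeOne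
    ⟨algebraMap K _ x, (map_ne_zero _).2 h0, by
      rw [UniformSpace.Completion.algebraMap_def, UniformSpace.Completion.norm_coe]; exact h1⟩
  have h : HasStrictDerivAt (fun u : v.Completion => u + u ^ 2) 1 0 := by
    exact ((hasStrictDerivAt_id (0 : v.Completion)).add (hasStrictDerivAt_pow 2 0)).congr_deriv
      (by simp)
  have h2 := Filter.range_mem_map (f := nhds 0) (m := fun u : v.Completion => u + u ^ 2)
  rw [h.map_nhds_eq one_ne_zero] at h2
  obtain ⟨δ, hδ, h3⟩ := Metric.mem_nhds_iff.1 h2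
  refine ⟨δ⁻¹ + ‖(4 : v.Completion)‖, by positivity, fun a b c h4 h5 => ?_⟩
  by_cases hb : b = 0
  · rw [hb, norm_zero, zero_pow two_ne_zero]
    positivity
  have ha : a ≠ 0 := mt h5 hb
  have hb' : 0 < ‖b‖ ^ 2 := pow_pos (norm_pos_iff.2 hb) 2
  rw [add_mul, add_mul]
  by_cases h6 : ‖a‖ * ‖c‖ / ‖b‖ ^ 2 < δ
  · obtain ⟨u, hu⟩ := @h3 (-(a * c / b ^ 2)) (by simpa using h6)
    have h7 := congrArg norm (h4 ⟨b / a * u, by
      have : u + u ^ 2 = -(a * c / b ^ 2) := hu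
      calc _ = b ^ 2 / a * (u + u ^ 2) + c := by field_simp; ring
        _ = 0 := by rw [this]; field_simp; ring⟩)
    rw [norm_pow, norm_mul, norm_mul] at h7
    rw [h7]
    exact le_add_of_nonneg_left (by positivity)
  · rw [not_lt, le_div_iff₀ hb', ← le_inv_mul_iff₀ hδ, ← mul_assoc] at h6
    exact h6.trans (le_add_of_nonneg_right (by positivity))

end Pool.Agent.Lib.MP_23f460_nt.D
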