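import Pool.Agent.Lib.MP_23f460_nt.D.Defs

/-! Absolute values and Dedekind subrings. -/

set_option autoImplicit false

namespace Pool.Agent.Lib.MP_23f460_nt.D

open Finset IsDedekindDomain

variable {K : Type} [Field K]

/-- the valuation ring of a nonarchimedean absolute value -/
def Ow (w : AbsoluteValue K ℝ) (hw : IsNonarchimedean w) : ValuationSubring K where
  carrier := {x | w x ≤ 1}
  mul_mem' := fun {a b} ha hb => (w.map_mul a b).trans_le (mul_le_one₀ ha (w.nonneg b) hb)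
  one_mem' := w.map_one.le
  add_mem' := fun {a b} ha hb => (hw a b).trans (max_le ha hb)
  zero_mem' := w.map_zero.trans_le zero_le_one
  neg_mem' := fun {a} ha => (w.map_neg a).trans_le ha
  mem_or_inv_mem' := fun x => (le_total (w x) 1).imp id fun h =>
    (map_inv₀ w x).trans_le (inv_le_one_of_one_le₀ h)

theorem na_int {A : Type} [CommRing A] (f : A →+* K) {w : AbsoluteValue K ℝ}
    (hw : IsNonarchimedean w) (h : ∀ a, w (f a) ≤ 1) {y : K} (hy : f.IsIntegralElem y) :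
    w y ≤ 1 := by
  let := f.toAlgebra
  obtain ⟨z, rfl⟩ := IsIntegrallyClosed.isIntegral_iff.1
    (IsIntegral.map_of_comp_eq (f.codRestrict (Ow w hw) h) (RingHom.id K) rfl (a := y) hy)
  exact z.2

theorem clos {A₀ K₀ : Type} [CommRing A₀] [IsDedekindDomain A₀] [Ring.HasFiniteQuotients A₀]
    [Field K₀] [Algebra K₀ K] [FiniteDimensional K₀ K] [Algebra.IsSeparable K₀ K] (ψ : A₀ →+* K₀)
    (hψ : Function.Injective ψ) (hf : ∀ z, ∃ x y, z = ψ x / ψ y) :
    ∃ (A : Subring K) (_ : IsDedekindDomain A) (_ : Ring.HasFiniteQuotients A)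
      (_ : IsFractionRing A K), (∀ y ∈ A, ((algebraMap K₀ K).comp ψ).IsIntegralElem y ∧
        ∃ a, ψ a = Algebra.trace K₀ K y) ∧ ∀ x : K, ∃ c, c ≠ 0 ∧ ψ c • x ∈ A := by
  let := ψ.toAlgebra
  let := ((algebraMap K₀ K).comp ψ).toAlgebra
  have : IsScalarTower A₀ K₀ K := IsScalarTower.of_algebraMap_eq fun _ => rfl
  have : FaithfulSMul A₀ K₀ := (faithfulSMul_iff_algebraMap_injective _ _).2 hψ
  have := IsFractionRing.of_field A₀ K₀ hf
  have h1 := IsIntegralClosure.isDedekindDomain A₀ K₀ K (integralClosure A₀ K)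
  have := IsIntegralClosure.finite A₀ K₀ K (integralClosure A₀ K)
  have h2 := Ring.HasFiniteQuotients.of_module_finite A₀ (integralClosure A₀ K)
  have h3 := IsIntegralClosure.isFractionRing_of_finite_extension A₀ K₀ K (integralClosure A₀ K)
  refine ⟨(integralClosure A₀ K).toSubring, h1, h2, h3, fun y hy => ⟨hy,
    IsIntegrallyClosed.isIntegral_iff.1 (Algebra.isIntegral_trace (R := A₀) hy)⟩, fun x => ?_⟩
  obtain ⟨c, hc, h⟩ := ((IsFractionRing.isAlgebraic_iff A₀ K₀ K).2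
    (Algebra.IsAlgebraic.isAlgebraic x)).exists_integral_multiple
  exact ⟨c, hc, (algebraMap_smul K₀ c x).symm ▸ h⟩

variable (A : Subring K) [IsDedekindDomain A] [IsFractionRing A K]

theorem ded {y : K}
    (h : ∀ w : AbsoluteValue K ℝ, w.IsNontrivial → (∀ a ∈ A, w a ≤ 1) → w y ≤ 1) : y ∈ A := by
  obtain ⟨z, rfl⟩ := HeightOneSpectrum.mem_integers_of_valuation_le_one (R := A) K y fun v => by
    obtain ⟨p, hp, h0⟩ := Submodule.exists_mem_ne_zero_of_ne_bot v.ne_bot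
    have h1 := h (v.adicAbv one_lt_two)
      ⟨p, fun e => h0 (Subtype.ext e), ((v.adicAbv_coe_lt_one_iff one_lt_two p).2 hp).ne⟩
      fun a ha => v.adicAbv_coe_le_one one_lt_two ⟨a, ha⟩
    exact (WithZeroMulInt.toNNReal_le_one_iff one_lt_two).1 (NNReal.coe_le_one.1 h1)
  exact z.2

theorem den {S : Finset (AbsoluteValue K ℝ)} {R : Subring K} (H : IsHasse K S R) (C : ℝ) :
    ∃ D : K, D ≠ 0 ∧ ∀ b ∈ R, (∀ v ∈ S, v b ≤ C) → D * b ∈ A := by
  classical
  have h : ∀ v : AbsoluteValue K ℝ, ∃ p ∈ A, p ≠ 0 ∧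
      (v.IsNontrivial → (∀ a ∈ A, v a ≤ 1) → ∀ b, v b ≤ C → v p * v b ≤ 1) := fun v => by
    by_cases hv : v.IsNontrivial
    swap
    · exact ⟨1, one_mem _, one_ne_zero, fun h => absurd h hv⟩
    obtain ⟨x, h0, h1⟩ := hv.exists_abv_lt_one
    obtain ⟨k, hk⟩ := exists_pow_lt_of_lt_one (show 0 < (|C| + 1)⁻¹ by positivity) h1
    obtain ⟨p, s, hs, e⟩ := IsFractionRing.div_surjective (A := A) (x ^ k)
    have hs' : (s : K) ≠ 0 := fun e => nonZeroDivisors.ne_zero hs (Subtype.ext e)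
    have e' : (p : K) = x ^ k * s := (div_eq_iff hs').1 e
    refine ⟨p, p.2, e' ▸ mul_ne_zero (pow_ne_zero _ h0) hs', fun _ h b hb => ?_⟩
    have h2 : v p ≤ (|C| + 1)⁻¹ := by
      rw [e', v.map_mul, v.map_pow]
      exact (mul_le_of_le_one_right (pow_nonneg (v.nonneg x) k) (h s s.2)).trans hk.le
    calc v p * v b ≤ (|C| + 1)⁻¹ * (|C| + 1) :=
          mul_le_mul h2 (by linarith [le_abs_self C]) (v.nonneg b) (by positivity)
      _ = 1 := inv_mul_cancel₀ (by positivity)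
  choose p hp h0 h using h
  refine ⟨∏ v ∈ S, p v, prod_ne_zero_iff.2 fun v _ => h0 v, fun b hb hC => ded A fun w hw h1 => ?_⟩
  by_cases h2 : ∃ v ∈ S, w.IsEquiv v
  · obtain ⟨v, hv, e⟩ := h2
    have h3 : ∀ a ∈ A, v a ≤ 1 := fun a ha => e.le_one_iff.1 (h1 a ha)
    rw [e.le_one_iff, ← prod_erase_mul _ _ hv, mul_assoc, v.map_mul, v.map_mul]
    exact mul_le_one₀ (h3 _ (prod_mem fun u _ => hp u)) (mul_nonneg (v.nonneg _) (v.nonneg _))
      (h v (H.place v hv) h3 b (hC v hv))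
  · rw [w.map_mul]
    exact mul_le_one₀ (h1 _ (prod_mem fun u _ => hp u)) (w.nonneg _)
      ((H.mem b).1 hb w hw fun v hv e => h2 ⟨v, hv, e⟩)

theorem ovr [Ring.HasFiniteQuotients A] {a : K} (ha : a ≠ 0) :
    ∃ Φ : Set K, Φ.Finite ∧ ∀ x : K, ∃ c ∈ Φ, ∀ w : AbsoluteValue K ℝ, IsNonarchimedean w →
      (∀ y ∈ A, w y ≤ 1) → w x ≤ 1 → w (x - c) ≤ w a := by
  obtain ⟨a₀, a₁, hs, e⟩ := IsFractionRing.div_surjective (A := A) a
  have e' : (a₀ : K) = a * a₁ :=
    (div_eq_iff fun e => nonZeroDivisors.ne_zero hs (Subtype.ext e)).1 e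
  have h0 : a₀ ≠ 0 := fun h => ha (by rw [← e, h, map_zero, zero_div])
  have := Ring.HasFiniteQuotients.finiteQuotient (mt Ideal.span_singleton_eq_bot.1 h0)
  let π := Ideal.Quotient.mk (Ideal.span {a₀})
  have hπ : Function.Surjective π := Ideal.Quotient.mk_surjective
  refine ⟨Set.range fun z : A ⧸ Ideal.span {a₀} => ((Function.surjInv hπ z : A) : K),
    Set.finite_range _, fun x => ?_⟩
  obtain ⟨p, s, hs, rfl⟩ := IsFractionRing.div_surjective (A := A) x
  have hs' : (s : K) ≠ 0 := fun e => nonZeroDivisors.ne_zero hs (Subtype.ext e)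
  obtain ⟨I, hI⟩ : Ideal.span {p, s} ∣ Ideal.span {s} :=
    Ideal.dvd_iff_le.2 (Ideal.span_mono (by simp))
  obtain ⟨k, hk⟩ : ∃ k, (I.map π) ^ k ≤ (I.map π) • (I.map π) ^ k := by
    obtain ⟨k, l, h1, h2⟩ := Finite.exists_ne_map_eq_of_infinite
      fun k : ℕ => (((I.map π) ^ k : Ideal _) : Set (A ⧸ Ideal.span {a₀}))
    have h3 := SetLike.coe_injective h2
    rcases lt_or_gt_of_ne h1 with h | h
    · exact ⟨k, h3.le.trans ((Ideal.pow_le_pow_right h).trans_eq (pow_succ' (I.map π) _))⟩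
    · exact ⟨l, h3.ge.trans ((Ideal.pow_le_pow_right h).trans_eq (pow_succ' (I.map π) _))⟩
  obtain ⟨r, h1, h2⟩ := Submodule.exists_sub_one_mem_and_smul_eq_zero_of_fg_of_le_smul _ _
    (IsNoetherian.noetherian _) hk
  obtain ⟨d, hd, h3⟩ := (Ideal.mem_map_iff_of_surjective π hπ).1 (neg_mem h1)
  obtain ⟨c, hc⟩ := Ideal.mem_span_singleton'.1
    (hI ▸ Ideal.mul_mem_mul (Ideal.subset_span (by simp : p ∈ ({p, s} : Set A))) hd)
  refine ⟨_, ⟨π c, rfl⟩, fun w hw hA hx => ?_⟩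
  have hJ : ∀ y ∈ Ideal.span {a₀}, w (y : A) ≤ w a := fun y hy => by
    obtain ⟨t, rfl⟩ := Ideal.mem_span_singleton'.1 hy
    rw [Subring.coe_mul, e', ← mul_assoc, mul_right_comm, w.map_mul]
    exact mul_le_of_le_one_left (w.nonneg a) (hA _ (t * a₁).2)
  have hp : w p ≤ w s := by
    rw [map_div₀] at hx
    exact (div_le_one (w.pos hs')).1 hx
  obtain ⟨d', hd', h4⟩ : ∃ d' ∈ I, 1 ≤ w (d' : A) := by
    by_contra! h
    refine lt_irrefl (w s) (Submodule.mul_induction_on (C := fun y : A => w y < w s)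
      (hI ▸ Ideal.mem_span_singleton_self s) (fun m hm n hn => ?_)
      fun y z hy hz => (hw _ _).trans_lt (max_lt hy hz))
    obtain ⟨α, β, rfl⟩ := Ideal.mem_span_pair.1 hm
    have h5 : w (α * p + β * s) ≤ w s := (hw _ _).trans (max_le
      ((w.map_mul _ _).trans_le ((mul_le_of_le_one_left (w.nonneg _) (hA _ α.2)).trans hp))
      ((w.map_mul _ _).trans_le (mul_le_of_le_one_left (w.nonneg _) (hA _ β.2))))
    calc _ = w (α * p + β * s) * w n := w.map_mul _ _
      _ ≤ w s * w n := mul_le_mul_of_nonneg_right h5 (w.nonneg _)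
      _ < w s := mul_lt_of_lt_one_right (w.pos hs') (h n hn)
  have h5 : w (1 - d : K) ≤ w a := by
    have h6 := hJ ((1 - d) * d' ^ k) (Ideal.Quotient.eq_zero_iff_mem.1 (by
      have := h2 _ (Ideal.pow_mem_pow (Ideal.mem_map_of_mem π hd') k)
      rw [map_mul, map_sub, map_one, map_pow]
      refine Eq.trans ?_ this
      rw [smul_eq_mul]
      congr 1
      exact (congrArg (1 - ·) h3).trans (by ring)))
    push_cast at h6
    rw [w.map_mul, w.map_pow] at h6
    exact (le_mul_of_one_le_right (w.nonneg _) (one_le_pow₀ h4)).trans h6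
  have h6 := hJ _ (Ideal.Quotient.eq.1 (Function.surjInv_eq hπ (π c)).symm)
  have h7 : (c : K) = p / s * d := by
    rw [div_mul_eq_mul_div, eq_div_iff hs']
    exact_mod_cast hc
  have h8 : algebraMap A K p / algebraMap A K s - (Function.surjInv hπ (π c) : A) =
      p / s * (1 - d) + (c - Function.surjInv hπ (π c) : A) := by
    push_cast
    rw [h7]
    change (p : K) / s - _ = _
    ring
  rw [h8]
  refine (hw _ _).trans (max_le ?_ h6)
  rw [w.map_mul]
  exact (mul_le_of_le_one_left (w.nonneg _) hx).trans h5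

end Pool.Agent.Lib.MP_23f460_nt.D
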