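import Mathlib

/-! Hasse domains and quadratic forms over them. -/

set_option autoImplicit false

namespace Pool.Agent.Lib.MP_23f460_nt.D

open MvPolynomial

open Classical in
/-- The canonical norm: `|a| = #(R / aR)` for `a ≠ 0`, and `|0| = 0`. -/
noncomputable def canNorm {R : Type} [CommRing R] (a : R) : ℕ :=
  if a = 0 then 0 else Nat.card (R ⧸ Ideal.span {a})

/-- The canonical norm on the fraction field: `|a / b| = |a| / |b|`. -/
noncomputable def fracNorm (R : Type) {K : Type} [CommRing R] [Field K] [Algebra R K]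
    [IsFractionRing R K] (z : K) : ℚ :=
  (canNorm (IsLocalization.sec (nonZeroDivisors R) z).1 : ℚ) /
    (canNorm ((IsLocalization.sec (nonZeroDivisors R) z).2 : R) : ℚ)

/-- A quadratic form: homogeneous polynomial of degree two, nondegenerate over `K`. -/
def IsForm (K : Type) {R : Type} [CommRing R] [Field K] [Algebra R K] {n : ℕ}
    (q : MvPolynomial (Fin n) R) : Prop :=
  q.IsHomogeneous 2 ∧
    ∀ x : Fin n → K, (∀ y : Fin n → K, aeval (x + y) q - aeval x q - aeval y q = 0) → x = 0

/-- For every `x ∈ K^n` outside `R^n` there is `y ∈ R^n` with `0 < |q(x - y)| < 1`. -/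
def IsEuclidean (K : Type) {R : Type} [CommRing R] [Field K] [Algebra R K] [IsFractionRing R K]
    {n : ℕ} (q : MvPolynomial (Fin n) R) : Prop :=
  ∀ x : Fin n → K, (¬ ∃ a : Fin n → R, ∀ i, algebraMap R K (a i) = x i) →
    ∃ y : Fin n → R, 0 < fracNorm R (aeval (fun i => x i - algebraMap R K (y i)) q) ∧
      fracNorm R (aeval (fun i => x i - algebraMap R K (y i)) q) < 1

/-- `q'(x) = q(A x)` for some `A ∈ GL_n(R)`. -/
def Isomorphic {R : Type} [CommRing R] {n : ℕ} (q q' : MvPolynomial (Fin n) R) : Prop :=
  ∃ A : GL (Fin n) R, ∀ x : Fin n → R,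
    eval x q' = eval ((A : Matrix (Fin n) (Fin n) R).mulVec x) q

/-- A number field, or a finite separable extension of the field of rational functions over a
finite field. -/
def IsGlobal (K : Type) [Field K] : Prop :=
  NumberField K ∨ ∃ (F : Type) (_ : Field F) (_ : Finite F) (_ : Algebra (RatFunc F) K),
    FiniteDimensional (RatFunc F) K ∧ Algebra.IsSeparable (RatFunc F) K

/-- `R` is the ring of `S`-integers of the global field `K` of characteristic not two; places are
classes of nontrivial absolute values and `S` is a finite set of representatives. -/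
structure IsHasse (K : Type) [Field K] (S : Finset (AbsoluteValue K ℝ)) (R : Subring K) : Prop where
  global : IsGlobal K
  two : (2 : K) ≠ 0
  nonempty : S.Nonempty
  place : ∀ v ∈ S, v.IsNontrivial
  arch : ∀ w : AbsoluteValue K ℝ, ¬ IsNonarchimedean w → ∃ v ∈ S, w.IsEquiv v
  mem : ∀ x : K, x ∈ R ↔
    ∀ w : AbsoluteValue K ℝ, w.IsNontrivial → (∀ v ∈ S, ¬ w.IsEquiv v) → w x ≤ 1

/-- `q` is anisotropic over the completion at every place of `S`. -/
def Definite {K : Type} [Field K] (S : Finset (AbsoluteValue K ℝ)) {R : Subring K} {n : ℕ}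
    (q : MvPolynomial (Fin n) R) : Prop :=
  ∀ v ∈ S, ∀ x : Fin n → v.Completion, x ≠ 0 → aeval x q ≠ 0

end Pool.Agent.Lib.MP_23f460_nt.D
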