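import Pool.Agent.Lib.MP_23f460_nt.D.Ded

/-! Two Dedekind subrings of a global field. -/

set_option autoImplicit false

namespace Pool.Agent.Lib.MP_23f460_nt.D

open Polynomial

variable {K : Type} [Field K]

/-- two Dedekind subrings that see all nonarchimedean absolute values -/
def Pack (K : Type) [Field K] : Prop :=
  ∃ (A₁ A₂ : Subring K) (_ : IsDedekindDomain A₁) (_ : Ring.HasFiniteQuotients A₁)
    (_ : IsFractionRing A₁ K) (_ : IsDedekindDomain A₂) (_ : Ring.HasFiniteQuotients A₂)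
    (_ : IsFractionRing A₂ K), (∀ w : AbsoluteValue K ℝ, IsNonarchimedean w →
      (∀ y ∈ A₁, w y ≤ 1) ∨ ∀ y ∈ A₂, w y ≤ 1) ∧
    ∀ (D₁ D₂ : K) (B : AbsoluteValue K ℝ → ℝ), D₁ ≠ 0 → D₂ ≠ 0 →
      {b | D₁ * b ∈ A₁ ∧ D₂ * b ∈ A₂ ∧
        ∀ w : AbsoluteValue K ℝ, ¬ IsNonarchimedean w → w b ≤ B w}.Finite

theorem pack_nf [NumberField K] : Pack K := by
  obtain ⟨A, h1, h2, h3, h4, -⟩ := clos (K := K) (Int.castRingHom ℚ) Int.cast_injective
    fun z => ⟨z.num, z.den, by simp [Rat.num_div_den]⟩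
  refine ⟨A, A, h1, h2, h3, h1, h2, h3, fun w hw => .inl fun y hy =>
    na_int _ hw (fun a => ?_) (h4 y hy).1, fun D _ B hD _ => ?_⟩
  · rw [eq_intCast]
    exact hw.apply_intCast_le_one
  · obtain ⟨B', hB⟩ := Finite.exists_le fun φ : K →+* ℂ => ‖φ D‖ * B (NumberField.place φ)
    refine ((NumberField.Embeddings.finite_of_norm_le K ℂ B').preimage (f := (D * ·))
      (mul_right_injective₀ hD).injOn).subset fun b hb => ⟨?_, fun φ => ?_⟩
    · have := (h4 _ hb.1).1
      rwa [RingHom.ext_int (RingHom.comp _ _) (algebraMap ℤ K)] at this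
    · rw [map_mul, norm_mul]
      refine (mul_le_mul_of_nonneg_left (hb.2.2 (NumberField.place φ) fun h => ?_)
        (norm_nonneg _)).trans (hB φ)
      have := h.apply_natCast_le_one (n := 2)
      norm_num [NumberField.place_apply, map_ofNat] at this

theorem poly_mem {F L : Type} [CommRing F] [CommRing L] (f : F[X] →+* L) (O : Subring L)
    (hC : ∀ k, f (C k) ∈ O) (hX : f X ∈ O) (p : F[X]) : f p ∈ O :=
  Polynomial.induction_on p hC (fun p q hp hq => map_add f p q ▸ add_mem hp hq) fun n a h => by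
    rw [pow_succ, ← mul_assoc, map_mul]
    exact mul_mem h hX

theorem rat_fin (F : Type) [Field F] [Finite F] {c c' : RatFunc F} (hc : c ≠ 0) (hc' : c' ≠ 0) :
    {t : RatFunc F | (∃ a : F[X], aeval RatFunc.X a = c * t) ∧
      ∃ a : F[X], aeval (RatFunc.X : RatFunc F)⁻¹ a = c' * t}.Finite := by
  classical
  have hf : ∀ N, (degreeLT F N : Set F[X]).Finite := fun N =>
    Finite.of_equiv _ (degreeLTEquiv F N).toEquiv.symm
  refine ((hf ((c / c').intDegree.toNat + 1)).image
    fun a => c⁻¹ * aeval RatFunc.X a).subset ?_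
  rintro t ⟨⟨a, ha⟩, a', ha'⟩
  refine ⟨a, mem_degreeLT.2 (degree_le_natDegree.trans_lt ?_), by simp [ha, hc]⟩
  by_cases h0 : a = 0
  · exact Nat.cast_lt.2 (by simp [h0])
  have h1 : RatFunc.inftyValuation F (aeval (RatFunc.X : RatFunc F)⁻¹ a') ≤ 1 :=
    poly_mem (aeval (RatFunc.X : RatFunc F)⁻¹).toRingHom (RatFunc.inftyValuation F).integer
      (fun k => by
        rw [Valuation.mem_integer_iff]
        by_cases h : k = 0 <;> simp [h, RatFunc.inftyValuation.C])
      (by simp [Valuation.mem_integer_iff, ← WithZero.exp_neg, ← WithZero.exp_zero]) a'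
  have h2 : RatFunc.inftyValuation F (aeval RatFunc.X a) ≤ RatFunc.inftyValuation F (c / c') := by
    rw [show aeval RatFunc.X a = c / c' * aeval (RatFunc.X : RatFunc F)⁻¹ a' by
      rw [ha, ha']; field_simp, map_mul]
    exact mul_le_of_le_one_right' h1
  rw [RatFunc.aeval_X_left_eq_algebraMap, RatFunc.inftyValuation_apply,
    RatFunc.inftyValuation.polynomial F h0, RatFunc.inftyValuation_apply,
    RatFunc.inftyValuation_of_nonzero F (div_ne_zero hc hc'), WithZero.exp_le_exp] at h2
  exact Nat.cast_lt.2 (by omega)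

theorem pack_ff (F : Type) [Field F] [Finite F] [Algebra (RatFunc F) K]
    [FiniteDimensional (RatFunc F) K] [Algebra.IsSeparable (RatFunc F) K] : Pack K := by
  have : Ring.HasFiniteQuotients F[X] := ⟨fun {I} hI => by
    obtain ⟨g, hg, h0⟩ := Submodule.exists_mem_ne_zero_of_ne_bot hI
    have := (monic_mul_leadingCoeff_inv h0).finite_quotient
    have : Finite (F[X] ⧸ Ideal.span {g * C g.leadingCoeff⁻¹}) := Module.finite_of_finite F
    exact Finite.of_surjective _ (Ideal.Quotient.factor_surjective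
      ((Ideal.span_singleton_le_iff_mem I).2 (I.mul_mem_right (C g.leadingCoeff⁻¹) hg)))⟩
  have hT := RatFunc.transcendental_X (K := F)
  have ht : ∀ t : RatFunc F, RatFunc.X ∈ IntermediateField.adjoin F {t} →
      ∀ z, ∃ x y : F[X], z = aeval t x / aeval t y := fun t h z =>
    (IntermediateField.mem_adjoin_simple_iff F z).1
      (IntermediateField.adjoin_simple_le_iff.2 h (RatFunc.adjoin_X.ge IntermediateField.mem_top))
  obtain ⟨A₁, h1, h2, h3, h4, h5⟩ := clos (K := K) (aeval (R := F) RatFunc.X).toRingHom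
    (transcendental_iff_injective.1 hT) (ht _ (IntermediateField.mem_adjoin_simple_self _ _))
  obtain ⟨A₂, k1, k2, k3, k4, k5⟩ := clos (K := K) (aeval (R := F) RatFunc.X⁻¹).toRingHom
    (transcendental_iff_injective.1 fun h => hT (IsAlgebraic.inv_iff.1 h))
    (ht _ (inv_mem_iff.1 (IntermediateField.mem_adjoin_simple_self _ _)))
  refine ⟨A₁, A₂, h1, h2, h3, k1, k2, k3, fun w hw => ?_, fun D₁ D₂ _ hD₁ hD₂ => ?_⟩
  · have h : ∀ f : F[X] →+* K, w (f X) ≤ 1 → ∀ p, w (f p) ≤ 1 := fun f hf =>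
      poly_mem f (Ow w hw).toSubring (fun k => le_of_not_gt fun h : 1 < w (f (C k)) => by
        have := Fintype.ofFinite F
        refine (lt_self_pow₀ h (Fintype.one_lt_card (α := F))).ne' ?_
        rw [← w.map_pow, ← map_pow, ← map_pow, FiniteField.pow_card]) hf
    refine (le_total (w (algebraMap (RatFunc F) K RatFunc.X)) 1).imp
      (fun e y hy => na_int _ hw (h _ ?_) (h4 y hy).1) fun e y hy => na_int _ hw (h _ ?_) (k4 y hy).1
    · simpa using e
    · simpa using inv_le_one_of_one_le₀ e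
  · let e := Module.finBasis (RatFunc F) K
    choose c c0 hc using fun i => h5 (e i / D₁)
    choose c' c0' hc' using fun i => k5 (e i / D₂)
    have hY := Set.Finite.pi' fun i => rat_fin F
      ((map_ne_zero_iff _ (transcendental_iff_injective.1 hT)).2 (c0 i))
      ((map_ne_zero_iff _ (transcendental_iff_injective.1
        fun h => hT (IsAlgebraic.inv_iff.1 h))).2 (c0' i))
    refine (hY.preimage (f := fun b i => Algebra.trace (RatFunc F) K (e i * b))
      fun b _ b' _ h => ?_).subset fun b hb i => ⟨?_, ?_⟩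
    · refine sub_eq_zero.1 ((traceForm_nondegenerate (RatFunc F) K).2 _ fun y => ?_)
      have h' : ∀ i, Algebra.traceForm (RatFunc F) K (e i) (b - b') = 0 := fun i => by
        simpa [mul_sub, sub_eq_zero] using congrFun h i
      rw [← e.sum_repr y]
      simp only [map_sum, map_smul, LinearMap.sum_apply, LinearMap.smul_apply, h', smul_zero,
        Finset.sum_const_zero]
    · obtain ⟨a, ha⟩ := (h4 _ (mul_mem (hc i) hb.1)).2
      refine ⟨a, ha.trans ?_⟩
      rw [smul_mul_assoc, map_smul, ← mul_assoc, div_mul_cancel₀ _ hD₁]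
      rfl
    · obtain ⟨a, ha⟩ := (k4 _ (mul_mem (hc' i) hb.2.1)).2
      refine ⟨a, ha.trans ?_⟩
      rw [smul_mul_assoc, map_smul, ← mul_assoc, div_mul_cancel₀ _ hD₂]
      rfl

theorem pack (h : IsGlobal K) : Pack K := by
  rcases h with h | ⟨F, _, _, _, _, _⟩
  · exact pack_nf
  · exact pack_ff F

end Pool.Agent.Lib.MP_23f460_nt.D
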